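import Pool.Agent.TH381.RM2.Defs
import Pool.Agent.TH805.RM.Pipe

/-!
# Project RM2, part BELT: the pipeline fed by a belt
-/

set_option autoImplicit false

namespace Pool.Agent.TH479.RM2

open Pool.Agent.H584R2.Dg Pool.Agent.W614.Dg Pool.Agent.TH381.RM Pool.Agent.TH381.RM2
open Pool.Agent.TH805.RM (rule_none rule_nil_nil rule_nil_cons rule_cons_nil rule_cons_cons
  take_step rule_buf)

/-! ### a pipeline of infinitely many stages, numbered from the right -/

/-- the right neighbour -/
def rt {S : Type} {σ : Dgsm S} (X : ℕ → ℕ → Cell σ) (t : ℕ) : ℕ → Cell σ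
  | 0 => none
  | n + 1 => X t n

section gen

variable {S : Type} (σ : Dgsm S) (X : ℕ → ℕ → Cell σ) (q : ℕ → σ.Q) (o R : ℕ → List S)

open Classical in
/-- the number of letters lost by the stage `n` before the time `t` -/
noncomputable def em (n : ℕ) : ℕ → ℕ
  | 0 => 0
  | t + 1 => em n t + if buf (X t n) ≠ [] ∧ buf (rt X t n) = [] then 1 else 0

/-- the word held and produced by the stage `n` before the time `t` -/
noncomputable def prd (n t : ℕ) : List S :=
  o n ++ σ.run (q n) ((R (n + 1)).take (em σ X (n + 1) t))

/-- the state of the stage `n` at the time `t` -/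
noncomputable def sta (n t : ℕ) : σ.Q := stAfter σ (q n) ((R (n + 1)).take (em σ X (n + 1) t))

/-- the invariant -/
def Inv (n t : ℕ) : Prop :=
  ∃ b, X t n = some (sta σ X q R n t, b) ∧
    (R n).take (em σ X n t) ++ b = prd σ X q o R n t ∧ em σ X n t ≤ (R n).length

/-- the length of the image in the row `0` of the first `m` letters of the row `n` -/
def DD : ℕ → ℕ → ℕ
  | 0, m => m
  | n + 1, m => DD n ((o n).length + (σ.run (q n) ((R (n + 1)).take m)).length)

variable {σ X q o R}

lemma em_yes {n t : ℕ} (h1 : buf (X t n) ≠ []) (h2 : buf (rt X t n) = []) :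
    em σ X n (t + 1) = em σ X n t + 1 := by
  rw [em, if_pos ⟨h1, h2⟩]

lemma em_no {n t : ℕ} (h : ¬ (buf (X t n) ≠ [] ∧ buf (rt X t n) = [])) :
    em σ X n (t + 1) = em σ X n t := by
  rw [em, if_neg h, add_zero]

variable (hR : ∀ n, R n = o n ++ σ.run (q n) (R (n + 1)))

include hR in
lemma pfx_R (n m : ℕ) : o n ++ σ.run (q n) ((R (n + 1)).take m) <+: R n := by
  rw [hR n]
  refine ⟨σ.run (stAfter σ (q n) ((R (n + 1)).take m)) ((R (n + 1)).drop m), ?_⟩
  rw [List.append_assoc, ← run_append, List.take_append_drop]

include hR in
lemma prd_pfx (n t : ℕ) : prd σ X q o R n t <+: R n := pfx_R hR n _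

variable (h0 : ∀ n, X 0 n = some (q n, o n))
  (hs : ∀ t n, X (t + 1) n = rule σ (X t (n + 1)) (X t n) (rt X t n))

include h0 in
lemma inv_zero (n : ℕ) : Inv σ X q o R n 0 := by
  refine ⟨o n, ?_, ?_, ?_⟩
  · rw [h0]
    simp [sta, em, stAfter]
  · simp [em, prd, Dgsm.run]
  · simp [em]

include hR h0 hs in
lemma inv_all (t : ℕ) : ∀ n, Inv σ X q o R n t := by
  induction t with
  | zero => exact fun n => inv_zero h0 n
  | succ t ih =>
    intro n
    obtain ⟨b, h1, h2, h3⟩ := ih n
    obtain ⟨b', g1, g2, g3⟩ := ih (n + 1)
    cases b with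
    | nil =>
      have hb : buf (X t n) = [] := by rw [h1]; rfl
      have hem : em σ X n (t + 1) = em σ X n t := em_no (fun h => h.1 hb)
      have hrt : rt X t (n + 1) = X t n := rfl
      cases b' with
      | nil =>
        have hb' : buf (X t (n + 1)) = [] := by rw [g1]; rfl
        have hem' : em σ X (n + 1) (t + 1) = em σ X (n + 1) t := em_no (fun h => h.1 hb')
        refine ⟨[], ?_, ?_, ?_⟩
        · rw [hs, h1, rule_nil_nil hb']
          simp only [sta, hem']
        · rw [hem, h2]
          simp only [prd, hem']
        · rw [hem]; exact h3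
      | cons s w =>
        have hb' : buf (X t (n + 1)) = s :: w := by rw [g1]; rfl
        have hem' := em_yes (σ := σ) (X := X) (n := n + 1) (t := t) (by rw [hb']; simp)
          (by rw [hrt]; exact hb)
        obtain ⟨e1, -⟩ := take_step g3 (g2 ▸ prd_pfx hR (n + 1) t)
        refine ⟨σ.out (sta σ X q R n t) s, ?_, ?_, ?_⟩
        · rw [hs, h1, rule_nil_cons hb']
          simp only [sta, hem', e1, stAfter_append]
          simp [stAfter]
        · rw [List.append_nil] at h2
          rw [hem, h2]
          simp only [prd, sta, hem', e1, run_append]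
          simp [Dgsm.run]
        · rw [hem]; exact h3
    | cons s b =>
      have hb : buf (X t n) = s :: b := by rw [h1]; rfl
      have hrt : rt X t (n + 1) = X t n := rfl
      have hem' : em σ X (n + 1) (t + 1) = em σ X (n + 1) t := em_no (fun h => by
        rw [hrt, hb] at h
        simp at h)
      have hsta : sta σ X q R n (t + 1) = sta σ X q R n t := by simp only [sta, hem']
      have hprd : prd σ X q o R n (t + 1) = prd σ X q o R n t := by simp only [prd, hem']
      by_cases hz : buf (rt X t n) = []
      · have hem := em_yes (σ := σ) (X := X) (n := n) (t := t) (by rw [hb]; simp) hz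
        obtain ⟨e1, e2⟩ := take_step h3 (h2 ▸ prd_pfx hR n t)
        refine ⟨b, ?_, ?_, ?_⟩
        · rw [hsta, hs, h1]
          exact rule_cons_nil hz _ _ _ _
        · rw [hprd, hem, e1, ← h2]
          simp
        · rw [hem]; exact e2
      · have hem : em σ X n (t + 1) = em σ X n t := em_no (fun h => hz h.2)
        refine ⟨s :: b, ?_, ?_, ?_⟩
        · rw [hsta, hs, h1]
          exact rule_cons_cons hz _ _ _ _
        · rw [hprd, hem, h2]
        · rw [hem]; exact h3

include hR h0 hs in
lemma heads (T : ℕ) : (List.range T).filterMap (fun t => (buf (X t 0)).head?) =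
    (R 0).take (em σ X 0 T) := by
  induction T with
  | zero => simp [em]
  | succ T ih =>
    rw [List.range_succ, List.filterMap_append, ih]
    obtain ⟨b, h1, h2, h3⟩ := inv_all hR h0 hs T 0
    cases b with
    | nil =>
      have hb : buf (X T 0) = [] := by rw [h1]; rfl
      rw [em_no (fun h => h.1 hb)]
      simp [hb]
    | cons s b =>
      have hb : buf (X T 0) = s :: b := by rw [h1]; rfl
      rw [em_yes (by rw [hb]; simp) rfl, (take_step h3 (h2 ▸ prd_pfx hR 0 T)).1]
      simp [hb]

section speed

variable (hne : σ.NonErasing)

include hne in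
lemma run_take_lt (p : σ.Q) (v : List S) {m m' : ℕ} (h : m < m') (h' : m' ≤ v.length) :
    (σ.run p (v.take m)).length < (σ.run p (v.take m')).length := by
  have e : v.take m' = v.take m ++ (v.drop m).take (m' - m) := by
    have : m' = m + (m' - m) := by omega
    conv_lhs => rw [this, List.take_add]
  rw [e, run_append, List.length_append]
  have h1 := run_length hne (stAfter σ p (v.take m)) ((v.drop m).take (m' - m))
  have h2 : ((v.drop m).take (m' - m)).length = m' - m := by
    rw [List.length_take, List.length_drop]
    omega
  omega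

include hR hne in
lemma DD_lt (n : ℕ) : ∀ m m', m < m' → m' ≤ (R n).length →
    DD σ q o R n m < DD σ q o R n m' := by
  induction n with
  | zero => intro m m' h _; exact h
  | succ n ih =>
    intro m m' h h'
    refine ih _ _ ?_ ?_
    · have := run_take_lt hne (q n) (R (n + 1)) h h'
      omega
    · have h1 := (pfx_R hR n m').length_le
      rw [List.length_append] at h1
      exact h1

include hR h0 hs hne in
lemma speed (l : ℕ) (hb : ∀ n, 0 < (R n).length → n ≤ 2 * DD σ q o R n 0 + l + 1) (t : ℕ) :
    ∀ n, em σ X n t < (R n).length → t + n ≤ 2 * DD σ q o R n (em σ X n t) + l + 1 := by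
  induction t with
  | zero =>
    intro n h
    have e : em σ X n 0 = 0 := rfl
    rw [e] at h ⊢
    have := hb n h
    omega
  | succ t ih =>
    intro n he
    by_cases hev : buf (X t n) ≠ [] ∧ buf (rt X t n) = []
    · have hem := em_yes (σ := σ) hev.1 hev.2
      rw [hem] at he ⊢
      have h1 := ih n (by omega)
      have h2 := DD_lt hR hne n (em σ X n t) (em σ X n t + 1) (by omega) he.le
      omega
    · have hem := em_no (σ := σ) hev
      rw [hem] at he ⊢
      obtain ⟨b, h1, h2, h3⟩ := inv_all hR h0 hs t n
      by_cases hbb : buf (X t n) = []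
      · -- nothing to lose
        have hbn : b = [] := by
          rw [h1] at hbb
          exact hbb
        rw [hbn, List.append_nil] at h2
        have hlen := congrArg List.length h2
        rw [List.length_take, min_eq_left h3] at hlen
        have e : prd σ X q o R n t =
          o n ++ σ.run (q n) ((R (n + 1)).take (em σ X (n + 1) t)) := rfl
        rw [e] at hlen
        have hi : em σ X (n + 1) t < (R (n + 1)).length := by
          by_contra hcon
          rw [List.take_of_length_le (by omega), ← hR] at hlen
          omega
        have h4 := ih (n + 1) hi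
        have h5 : DD σ q o R (n + 1) (em σ X (n + 1) t) = DD σ q o R n (em σ X n t) := by
          rw [hlen, List.length_append]
          rfl
        rw [h5] at h4
        omega
      · -- the next stage is busy
        have hb2 : buf (rt X t n) ≠ [] := fun h => hev ⟨hbb, h⟩
        cases n with
        | zero => exact absurd rfl hb2
        | succ k =>
          have hrt : rt X t (k + 1) = X t k := rfl
          rw [hrt] at hb2
          obtain ⟨b', g1, g2, g3⟩ := inv_all hR h0 hs t k
          have hb' : b' ≠ [] := by
            rw [g1] at hb2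
            exact hb2
          have hlen := congrArg List.length g2
          rw [List.length_append, List.length_take, min_eq_left g3] at hlen
          have hpos := List.length_pos_of_ne_nil hb'
          have e : prd σ X q o R k t =
            o k ++ σ.run (q k) ((R (k + 1)).take (em σ X (k + 1) t)) := rfl
          have hc : (prd σ X q o R k t).length ≤ (R k).length := (prd_pfx hR k t).length_le
          have h4 := ih k (by omega)
          have h5 := DD_lt hR hne k (em σ X k t) (prd σ X q o R k t).length (by omega) hc
          have h6 : DD σ q o R (k + 1) (em σ X (k + 1) t) =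
              DD σ q o R k (prd σ X q o R k t).length := by
            rw [e, List.length_append]
            rfl
          rw [h6]
          omega

end speed

end gen

/-! ### the belt -/

section belt

variable {S : Type} (τ : Dgsm S) (y : List S) (l : ℕ)

lemma run_none (v : List S) : (belt τ).run (none : Option τ.Q) v = v := by
  induction v with
  | nil => rfl
  | cons x v ih =>
    show (belt τ).out (none : Option τ.Q) x ++ (belt τ).run ((belt τ).next (none : Option τ.Q) x) v
      = x :: v
    have e1 : (belt τ).out (none : Option τ.Q) x = [x] := rfl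
    have e2 : (belt τ).next (none : Option τ.Q) x = (none : Option τ.Q) := rfl
    rw [e1, e2, ih]
    rfl

lemma run_some (p : τ.Q) (v : List S) : (belt τ).run (some p : Option τ.Q) v = τ.run p v := by
  induction v generalizing p with
  | nil => rfl
  | cons x v ih =>
    show (belt τ).out (some p : Option τ.Q) x ++
      (belt τ).run ((belt τ).next (some p : Option τ.Q) x) v = τ.out p x ++ τ.run (τ.next p x) v
    have e1 : (belt τ).out (some p : Option τ.Q) x = τ.out p x := rfl
    have e2 : (belt τ).next (some p : Option τ.Q) x = (some (τ.next p x) : Option τ.Q) := rfl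
    rw [e1, e2, ih]

/-- the cells -/
def XX (t n : ℕ) : Cell (belt τ) := cb τ y l t (-(n : ℤ))

/-- the states at the time `0` -/
def qq (n : ℕ) : (belt τ).Q := if l ≤ n then (none : Option τ.Q) else (some τ.init : Option τ.Q)

/-- the buffers at the time `0` -/
def oo (n : ℕ) : List S := if l ≤ n then (y[n - l]?).toList else []

/-- the words lost by the cells -/
def RR (n : ℕ) : List S := τ.map^[l - n] (y.drop (n - l))

variable {τ y l}

lemma qq_pos {n : ℕ} (h : l ≤ n) : qq τ l n = (none : Option τ.Q) := if_pos h

lemma qq_neg {n : ℕ} (h : ¬ l ≤ n) : qq τ l n = (some τ.init : Option τ.Q) := if_neg h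

lemma oo_pos {n : ℕ} (h : l ≤ n) : oo y l n = (y[n - l]?).toList := if_pos h

lemma oo_neg {n : ℕ} (h : ¬ l ≤ n) : oo y l n = [] := if_neg h

lemma hR (n : ℕ) : RR τ y l n = oo y l n ++ (belt τ).run (qq τ l n) (RR τ y l (n + 1)) := by
  unfold RR
  by_cases h : l ≤ n
  · rw [oo_pos h, qq_pos h, run_none]
    have e1 : l - n = 0 := by omega
    have e2 : l - (n + 1) = 0 := by omega
    have e3 : n + 1 - l = (n - l) + 1 := by omega
    rw [e1, e2, e3, Function.iterate_zero, id_eq, id_eq]
    generalize n - l = j
    by_cases hj : j < y.length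
    · rw [List.getElem?_eq_getElem hj, Option.toList_some, List.drop_eq_getElem_cons hj]
      rfl
    · rw [List.getElem?_eq_none (by omega), Option.toList_none, List.drop_of_length_le (by omega),
        List.drop_of_length_le (by omega)]
      rfl
  · rw [oo_neg h, qq_neg h, run_some]
    have e1 : l - n = (l - (n + 1)) + 1 := by omega
    have e2 : n - l = 0 := by omega
    have e3 : n + 1 - l = 0 := by omega
    rw [e1, e2, e3, Function.iterate_succ_apply']
    rfl

lemma h0 (n : ℕ) : XX τ y l 0 n = some (qq τ l n, oo y l n) := by
  unfold XX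
  rw [cb, if_neg (by omega)]
  by_cases h : l ≤ n
  · rw [if_pos (by omega)]
    have e : (-(-(n : ℤ) + (l : ℤ))).toNat = n - l := by omega
    exact congrArg some (Prod.ext (qq_pos h).symm (by rw [oo_pos h, ← e]))
  · rw [if_neg (by omega)]
    exact congrArg some (Prod.ext (qq_neg h).symm (oo_neg h).symm)

lemma sink (t : ℕ) : cb τ y l t 1 = none := by
  induction t with
  | zero => rw [cb, if_pos rfl]
  | succ t ih => rw [cb, ih]; rfl

lemma hs (t n : ℕ) : XX τ y l (t + 1) n =
    rule (belt τ) (XX τ y l t (n + 1)) (XX τ y l t n) (rt (XX τ y l) t n) := by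
  have e1 : (-(n : ℤ)) - 1 = -((n + 1 : ℕ) : ℤ) := by push_cast; ring
  cases n with
  | zero =>
    show cb τ y l (t + 1) (-((0 : ℕ) : ℤ)) = rule (belt τ) _ _ none
    rw [cb, e1]
    have e2 : -((0 : ℕ) : ℤ) + 1 = 1 := by norm_num
    rw [e2, sink]
    rfl
  | succ k =>
    show cb τ y l (t + 1) (-((k + 1 : ℕ) : ℤ)) = rule (belt τ) _ _ (XX τ y l t k)
    rw [cb, e1]
    have e2 : -((k + 1 : ℕ) : ℤ) + 1 = -(k : ℤ) := by push_cast; ring
    rw [e2]
    rfl

lemma nonErasing_belt (hne : τ.NonErasing) : (belt τ).NonErasing := by
  intro p x
  cases p with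
  | none => exact List.cons_ne_nil _ _
  | some p => exact hne p x

lemma DD_belt (hne : τ.NonErasing) (j : ℕ) (hj : j ≤ y.length) :
    j ≤ DD (belt τ) (qq τ l) (oo y l) (RR τ y l) (l + j) 0 := by
  induction j with
  | zero => exact Nat.zero_le _
  | succ j ih =>
    have h1 := ih (by omega)
    have hl : (RR τ y l (l + j)).length = y.length - j := by
      unfold RR
      have e1 : l - (l + j) = 0 := by omega
      have e2 : l + j - l = j := by omega
      rw [e1, e2, Function.iterate_zero, id_eq, List.length_drop]
    have h2 := DD_lt hR (nonErasing_belt hne) (l + j) 0 1 (by omega) (by rw [hl]; omega)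
    have e : DD (belt τ) (qq τ l) (oo y l) (RR τ y l) (l + (j + 1)) 0 =
        DD (belt τ) (qq τ l) (oo y l) (RR τ y l) (l + j) 1 := by
      show DD (belt τ) (qq τ l) (oo y l) (RR τ y l) (l + j) ((oo y l (l + j)).length +
        ((belt τ).run (qq τ l (l + j)) ((RR τ y l (l + j + 1)).take 0)).length) = _
      have e1 : (oo y l (l + j)).length = 1 := by
        unfold oo
        have e2 : l + j - l = j := by omega
        rw [if_pos (by omega), e2, List.getElem?_eq_getElem (by omega)]
        rfl
      have e3 : ((belt τ).run (qq τ l (l + j)) ((RR τ y l (l + j + 1)).take 0)).length = 0 := by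
        rw [List.take_zero]
        rfl
      rw [e1, e3]
    rw [e]
    omega

end belt

/-- **BELT** -/
theorem belt_pipe : Pool.Agent.TH381.RM2.SBelt := by
  intro S τ y l hne
  constructor
  · intro T hT
    have h1 := heads (σ := belt τ) (X := XX τ y l) hR h0 hs T
    have e0 : (fun t => (buf (cb τ y l t 0)).head?) = fun t => (buf (XX τ y l t 0)).head? := by
      funext t
      have e : -((0 : ℕ) : ℤ) = 0 := by norm_num
      unfold XX
      rw [e]
    have e1 : RR τ y l 0 = τ.map^[l] y := by
      unfold RR
      rw [Nat.sub_zero, Nat.zero_sub, List.drop_zero]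
    rw [e0, h1, e1]
    refine List.take_of_length_le ?_
    by_contra hcon
    have h2 := speed (σ := belt τ) (X := XX τ y l) hR h0 hs (nonErasing_belt hne) l (fun n hn => by
      by_cases h : n ≤ l
      · omega
      · have e2 : n = l + (n - l) := by omega
        have h3 : n - l ≤ y.length := by
          unfold RR at hn
          have e3 : l - n = 0 := by omega
          rw [e3, Function.iterate_zero, id_eq, List.length_drop] at hn
          omega
        have h4 := DD_belt (l := l) hne (n - l) h3
        rw [← e2] at h4
        omega) T 0 (by rw [e1]; omega)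
    have e4 : DD (belt τ) (qq τ l) (oo y l) (RR τ y l) 0 (em (belt τ) (XX τ y l) 0 T) =
      em (belt τ) (XX τ y l) 0 T := rfl
    rw [e4] at h2
    omega
  · intro L hL ho t
    have ho' : ∀ q x, ((belt τ).out q x).length ≤ L := by
      intro p x
      cases p with
      | none => exact hL
      | some p => exact ho p x
    induction t with
    | zero =>
      intro i
      rw [cb]
      split_ifs
      · exact Nat.zero_le _
      · refine le_trans ?_ hL
        show (y[(-(i + (l : ℤ))).toNat]?).toList.length ≤ 1
        cases y[(-(i + (l : ℤ))).toNat]? with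
        | none => exact Nat.zero_le _
        | some x => exact le_rfl
      · exact Nat.zero_le _
    | succ t ih =>
      intro i
      rw [cb]
      exact rule_buf ho' _ _ _ (ih i)

end Pool.Agent.TH479.RM2
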